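import Pool.Agent.W809.ZQ.Stm

set_option autoImplicit false

/-!
# Project ZQ, part LC: coordinates of the second kind on a closed subgroup
-/

open Set Filter Topology

namespace Pool.Agent.W29.ZQ.Lc

open Pool.Agent.W809.ZQ

section abstract

variable {A : Type} [NormedRing A] [NormedAlgebra ℝ A] [CompleteSpace A]

/-- product of exponentials in a Banach algebra -/
noncomputable def pe {d : ℕ} (Y : Fin d → A) (t : Fin d → ℝ) : A :=
  (List.ofFn fun j => NormedSpace.exp (t j • Y j)).prod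

theorem pe_zero {d : ℕ} (Y : Fin d → A) : pe Y 0 = 1 := by
  unfold pe
  simp [List.ofFn_const, NormedSpace.exp_zero]

theorem pe_succ {d : ℕ} (Y : Fin (d + 1) → A) (t : Fin (d + 1) → ℝ) :
    pe Y t = NormedSpace.exp (t 0 • Y 0) * pe (fun j => Y j.succ) (fun j => t j.succ) := by
  unfold pe
  rw [List.ofFn_succ, List.prod_cons]

/-- the derivative at the origin -/
noncomputable def dpe {d : ℕ} (Y : Fin d → A) : (Fin d → ℝ) →L[ℝ] A :=
  ∑ j, (ContinuousLinearMap.proj j : (Fin d → ℝ) →L[ℝ] ℝ).smulRight (Y j)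

theorem dpe_apply {d : ℕ} (Y : Fin d → A) (t : Fin d → ℝ) : dpe Y t = ∑ j, t j • Y j := by
  unfold dpe
  simp [ContinuousLinearMap.sum_apply]

theorem pe_strict {d : ℕ} (Y : Fin d → A) :
    HasStrictFDerivAt (fun t : Fin d → ℝ => pe Y t) (dpe Y) 0 := by
  induction d with
  | zero =>
    have h1 : (fun t : Fin 0 → ℝ => pe Y t) = fun _ => 1 := by
      funext t
      simp [pe]
    have h2 : dpe Y = 0 := by
      ext t
      simp [dpe_apply]
    rw [h1, h2]
    exact hasStrictFDerivAt_const _ _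
  | succ d ih =>
    let tl : (Fin (d + 1) → ℝ) →L[ℝ] (Fin d → ℝ) :=
      ContinuousLinearMap.pi fun j => ContinuousLinearMap.proj j.succ
    let hd : (Fin (d + 1) → ℝ) →L[ℝ] A :=
      (ContinuousLinearMap.proj 0 : (Fin (d + 1) → ℝ) →L[ℝ] ℝ).smulRight (Y 0)
    have ha : HasStrictFDerivAt (fun t : Fin (d + 1) → ℝ => NormedSpace.exp (t 0 • Y 0)) hd 0 := by
      have h1 : HasStrictFDerivAt (NormedSpace.exp : A → A) (1 : A →L[ℝ] A) (hd 0) := by
        rw [map_zero]
        exact hasStrictFDerivAt_exp_zero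
      have h2 := h1.comp (0 : Fin (d + 1) → ℝ) hd.hasStrictFDerivAt
      have h3 : ((1 : A →L[ℝ] A).comp hd) = hd := by ext t; rfl
      rw [h3] at h2
      exact h2
    have hb : HasStrictFDerivAt (fun t : Fin (d + 1) → ℝ => pe (fun j => Y j.succ) (tl t))
        ((dpe fun j => Y j.succ).comp tl) 0 := by
      have h1 : HasStrictFDerivAt (fun t : Fin d → ℝ => pe (fun j => Y j.succ) t)
          (dpe fun j => Y j.succ) (tl 0) := by
        rw [map_zero]
        exact ih _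
      exact h1.comp (0 : Fin (d + 1) → ℝ) tl.hasStrictFDerivAt
    have hm := ha.mul' hb
    have hfun : (fun t : Fin (d + 1) → ℝ => pe Y t) =
        (fun t : Fin (d + 1) → ℝ => NormedSpace.exp (t 0 • Y 0)) *
          (fun t : Fin (d + 1) → ℝ => pe (fun j => Y j.succ) (tl t)) := by
      funext t
      rw [Pi.mul_apply, pe_succ]
      rfl
    rw [hfun]
    refine hm.congr_fderiv ?_
    ext t
    simp only [map_zero, pe_zero, Pi.zero_apply, zero_smul, NormedSpace.exp_zero, one_smul,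
      ContinuousLinearMap.add_apply, ContinuousLinearMap.comp_apply, dpe_apply,
      Fin.sum_univ_succ]
    simp [hd, tl, add_comm]

/-- the local surjectivity of `(t, V) ↦ exp(t_0 Y_0) ... (1 + V)` -/
theorem image_nhds [FiniteDimensional ℝ A] {d : ℕ} (Y : Fin d → A) (W : Submodule ℝ A)
    (hW : Submodule.span ℝ (Set.range Y) ⊔ W = ⊤) (S : Set ((Fin d → ℝ) × W)) (hS : S ∈ 𝓝 0) :
    (fun q : (Fin d → ℝ) × W => pe Y q.1 * (1 + (q.2 : A))) '' S ∈ 𝓝 (1 : A) := by
  have ha : HasStrictFDerivAt (fun q : (Fin d → ℝ) × W => pe Y q.1)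
      ((dpe Y).comp (ContinuousLinearMap.fst ℝ (Fin d → ℝ) W)) 0 := by
    have h1 : HasStrictFDerivAt (fun t : Fin d → ℝ => pe Y t) (dpe Y)
        ((ContinuousLinearMap.fst ℝ (Fin d → ℝ) W) 0) := by
      rw [map_zero]; exact pe_strict Y
    exact h1.comp (0 : (Fin d → ℝ) × W) (ContinuousLinearMap.fst ℝ (Fin d → ℝ) W).hasStrictFDerivAt
  have hb : HasStrictFDerivAt (fun q : (Fin d → ℝ) × W => (1 : A) + (q.2 : A))
      (W.subtypeL.comp (ContinuousLinearMap.snd ℝ (Fin d → ℝ) W)) 0 := by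
    have h1 := (W.subtypeL.comp (ContinuousLinearMap.snd ℝ (Fin d → ℝ) W)).hasStrictFDerivAt
      (x := (0 : (Fin d → ℝ) × W))
    exact h1.const_add (1 : A)
  have hm := ha.mul' hb
  have hsurj : (((fun q : (Fin d → ℝ) × W => pe Y q.1) 0 •
      (W.subtypeL.comp (ContinuousLinearMap.snd ℝ (Fin d → ℝ) W)) +
      MulOpposite.op ((fun q : (Fin d → ℝ) × W => (1 : A) + (q.2 : A)) 0) •
        ((dpe Y).comp (ContinuousLinearMap.fst ℝ (Fin d → ℝ) W)) :
        ((Fin d → ℝ) × W) →L[ℝ] A)).range = ⊤ := by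
    rw [LinearMap.range_eq_top]
    intro M
    have hM : M ∈ Submodule.span ℝ (Set.range Y) ⊔ W := by rw [hW]; trivial
    obtain ⟨s, hs, w, hw, hsw⟩ := Submodule.mem_sup.1 hM
    obtain ⟨t, ht⟩ := (Submodule.mem_span_range_iff_exists_fun ℝ).1 hs
    refine ⟨(t, ⟨w, hw⟩), ?_⟩
    simp [pe_zero, dpe_apply, ht]
    rw [add_comm]; exact hsw
  have hmap := hm.map_nhds_eq_of_surj hsurj
  have h0 : ((fun q : (Fin d → ℝ) × W => pe Y q.1) *
      (fun q : (Fin d → ℝ) × W => (1 : A) + (q.2 : A))) 0 = 1 := by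
    simp [pe_zero]
  rw [h0] at hmap
  rw [← hmap]
  exact image_mem_map hS

end abstract

theorem lc (hADD : S_ADD) (hTRV : S_TRV) : S_LC := by
  intro n N hN d Y hY hspan ε hε
  letI : NormedRing (Mt n) := Matrix.linftyOpNormedRing
  letI : NormedAlgebra ℝ (Mt n) := Matrix.linftyOpNormedAlgebra
  obtain ⟨W, hW⟩ := Submodule.exists_isCompl (Submodule.span ℝ (Set.range Y))
  obtain ⟨O0, hO0, h0⟩ := hTRV n N hN W (by
    intro X hX hXW
    have h1 : X ∈ Submodule.span ℝ (Set.range Y) ⊓ W := ⟨hspan X hX, hXW⟩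
    rw [hW.inf_eq_bot] at h1
    exact (Submodule.mem_bot ℝ).1 h1)
  let S : Set ((Fin d → ℝ) × W) := {q | (∀ j, |q.1 j| < ε) ∧ (q.2 : Mt n) ∈ O0}
  have hS : S ∈ 𝓝 (0 : (Fin d → ℝ) × W) := by
    have h1 : ∀ᶠ q : (Fin d → ℝ) × W in 𝓝 0, ∀ j, |q.1 j| < ε := by
      rw [Filter.eventually_all]
      intro j
      have hc : Continuous (fun q : (Fin d → ℝ) × W => |q.1 j|) := by fun_prop
      have := hc.continuousAt (x := (0 : (Fin d → ℝ) × W))
      apply this.eventually_lt_const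
      simpa using hε
    have h2 : ∀ᶠ q : (Fin d → ℝ) × W in 𝓝 0, (q.2 : Mt n) ∈ O0 := by
      have hc : Continuous (fun q : (Fin d → ℝ) × W => (q.2 : Mt n)) := by fun_prop
      have := hc.continuousAt (x := (0 : (Fin d → ℝ) × W))
      apply this.eventually_mem
      simpa using hO0
    exact h1.and h2
  have himg := image_nhds Y W hW.sup_eq_top S hS
  have hcoe : Continuous (fun g : U n => (g : Mt n)) := continuous_subtype_val
  refine ⟨_, hcoe.continuousAt.preimage_mem_nhds (x := (1 : U n)) himg, ?_⟩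
  rintro g hg ⟨⟨t, V⟩, ⟨ht, hV⟩, hgV⟩
  refine ⟨t, ht, ?_⟩
  obtain ⟨u, hu, hue⟩ := PE_mem hY t
  have hgV' : PE Y t * (1 + (V : Mt n)) = (g : Mt n) := hgV
  have hu1 : ((u⁻¹ : U n) : Mt n) * (u : Mt n) = 1 := by
    rw [← Submonoid.coe_mul, inv_mul_cancel]; rfl
  have h1 : ((u⁻¹ * g : U n) : Mt n) = 1 + (V : Mt n) := by
    rw [Submonoid.coe_mul, ← hgV', ← hue, ← mul_assoc, hu1, one_mul]
  have h2 := h0 (V : Mt n) hV V.2 ⟨u⁻¹ * g, N.mul_mem (N.inv_mem hu) hg, h1⟩
  rw [← hgV', h2, add_zero, mul_one]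

end Pool.Agent.W29.ZQ.Lc
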